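import Mathlib

/-!
# Back and forth (generic), MP_b3782f_an, helper78
-/

namespace MPb3782f.H78

open Filter Topology

/-- One half-step of the back-and-forth construction. -/
theorem half_step {X : Type*} [NormedAddCommGroup X] {G : Set X} {r : ℝ}
    (hG : Metric.ball (0 : X) r ⊆ closure G) {a b : X} (hab : ‖b - a‖ < r) {η : ℝ} (hη : 0 < η) :
    ∃ c ∈ G, ‖b - (a + c)‖ < η := by
  have h1 : b - a ∈ closure G := hG (by simpa [Metric.mem_ball, dist_eq_norm] using hab)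
  obtain ⟨c, hc, hd⟩ := Metric.mem_closure_iff.1 h1 η hη
  refine ⟨c, hc, ?_⟩
  rw [dist_eq_norm] at hd
  have : b - (a + c) = b - a - c := by abel
  rwa [this]

/-- **Back and forth.**  If the good increments at `(n, s)` are dense in a ball of radius `R n s`,
then from two starting points `s0`, `s0'` with `‖s0' - s0‖ < R 0 s0` one reaches the same limit by
good increments. -/
theorem back_and_forth {X : Type*} [NormedAddCommGroup X] [CompleteSpace X]
    (Good : ℕ → X → Set X) (R : ℕ → X → ℝ) (hR : ∀ n s, 0 < R n s)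
    (hdense : ∀ n s, Metric.ball (0 : X) (R n s) ⊆ closure (Good n s))
    (s0 s0' : X) (h0 : ‖s0' - s0‖ < R 0 s0) :
    ∃ (s s' : ℕ → X) (sinf : X), s 0 = s0 ∧ s' 0 = s0' ∧
      (∀ n, s (n + 1) - s n ∈ Good n (s n)) ∧ (∀ n, s' (n + 1) - s' n ∈ Good n (s' n)) ∧
      Tendsto s atTop (𝓝 sinf) ∧ Tendsto s' atTop (𝓝 sinf) := by
  classical
  -- one full step
  have step : ∀ (n : ℕ) (p : X × X), ‖p.2 - p.1‖ < R n p.1 →
      ∃ p' : X × X, (p'.1 - p.1 ∈ Good n p.1) ∧ (p'.2 - p.2 ∈ Good n p.2) ∧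
        ‖p'.2 - p'.1‖ < R (n + 1) p'.1 ∧ ‖p'.2 - p'.1‖ < (1 / 2 : ℝ) ^ n ∧
        ‖p'.1 - p.2‖ < (1 / 2 : ℝ) ^ n := by
    rintro n ⟨a, b⟩ hab
    simp only at hab
    have hpow : (0 : ℝ) < (1 / 2 : ℝ) ^ n := by positivity
    obtain ⟨c, hc, hc'⟩ := half_step (hdense n a) hab (lt_min (hR n b) hpow)
    have h2 : ‖(a + c) - b‖ < R n b := by
      rw [norm_sub_rev]; exact lt_of_lt_of_le hc' (min_le_left _ _)
    obtain ⟨d, hd, hd'⟩ := half_step (hdense n b) h2 (lt_min (hR (n + 1) (a + c)) hpow)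
    refine ⟨(a + c, b + d), ?_, ?_, ?_, ?_, ?_⟩
    · simpa using hc
    · simpa using hd
    · simp only
      rw [norm_sub_rev]; exact lt_of_lt_of_le hd' (min_le_left _ _)
    · simp only
      rw [norm_sub_rev]; exact lt_of_lt_of_le hd' (min_le_right _ _)
    · simp only
      rw [norm_sub_rev]; exact lt_of_lt_of_le hc' (min_le_right _ _)
  choose! F hF using step
  -- the sequence
  let u : ℕ → X × X := fun n => Nat.rec (s0, s0') (fun k p => F k p) n
  have u0 : u 0 = (s0, s0') := rfl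
  have us : ∀ n, u (n + 1) = F n (u n) := fun n => rfl
  have inv : ∀ n, ‖(u n).2 - (u n).1‖ < R n (u n).1 := by
    intro n
    induction n with
    | zero => simpa [u0] using h0
    | succ k ih => rw [us]; exact (hF k (u k) ih).2.2.1
  have hgap : ∀ n, ‖(u (n + 1)).2 - (u (n + 1)).1‖ < (1 / 2 : ℝ) ^ n := by
    intro n; rw [us]; exact (hF n (u n) (inv n)).2.2.2.1
  have hgap2 : ∀ n, ‖(u (n + 1)).1 - (u n).2‖ < (1 / 2 : ℝ) ^ n := by
    intro n; rw [us]; exact (hF n (u n) (inv n)).2.2.2.2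
  have hgap' : ∀ n, ‖(u n).2 - (u n).1‖ ≤ (2 + ‖s0' - s0‖) * (1 / 2 : ℝ) ^ n := by
    intro n
    cases n with
    | zero => simp [u0]
    | succ k =>
      refine (hgap k).le.trans ?_
      have h1 : (0 : ℝ) ≤ ‖s0' - s0‖ * (1 / 2 : ℝ) ^ (k + 1) := by positivity
      have h2 : (2 + ‖s0' - s0‖) * (1 / 2 : ℝ) ^ (k + 1)
          = (1 / 2 : ℝ) ^ k + ‖s0' - s0‖ * (1 / 2 : ℝ) ^ (k + 1) := by
        rw [pow_succ]; ring
      rw [h2]; linarith
  have hcauchy : CauchySeq (fun n => (u n).1) := by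
    refine cauchySeq_of_le_geometric (1 / 2 : ℝ) (3 + ‖s0' - s0‖) (by norm_num) ?_
    intro n
    rw [dist_eq_norm]
    have h1 : (u n).1 - (u (n + 1)).1
        = -(((u n).2 - (u n).1)) + -((u (n + 1)).1 - (u n).2) := by abel
    rw [h1]
    refine (norm_add_le _ _).trans ?_
    rw [norm_neg, norm_neg]
    have h2 := hgap' n
    have h3 := (hgap2 n).le
    have h4 : (3 + ‖s0' - s0‖) * (1 / 2 : ℝ) ^ n
        = (2 + ‖s0' - s0‖) * (1 / 2 : ℝ) ^ n + (1 / 2 : ℝ) ^ n := by ring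
    rw [h4]
    linarith
  obtain ⟨sinf, hs⟩ := cauchySeq_tendsto_of_complete hcauchy
  have hdiff : Tendsto (fun n => (u n).2 - (u n).1) atTop (𝓝 0) := by
    refine squeeze_zero_norm hgap' ?_
    have := (tendsto_pow_atTop_nhds_zero_of_lt_one (r := (1 / 2 : ℝ)) (by norm_num)
      (by norm_num)).const_mul (2 + ‖s0' - s0‖)
    simpa using this
  refine ⟨fun n => (u n).1, fun n => (u n).2, sinf, rfl, rfl, ?_, ?_, hs, ?_⟩
  · intro n; simp only [us]; exact (hF n (u n) (inv n)).1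
  · intro n; simp only [us]; exact (hF n (u n) (inv n)).2.1
  · have := hs.add hdiff
    simpa using this

end MPb3782f.H78
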