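import Pool.Agent.Lib.MP_b3782f_an.H78.Stab
import Pool.Agent.Lib.MP_b3782f_an.H79.Local

/-!
# The generic pair, MP_b3782f_an, helper78
-/

set_option autoImplicit false

open Filter Topology

namespace MPb3782f.H78

open Pool.Agent.Lib.MP_b3782f_an.H79

section Res

variable {A : Type} [NormedRing A] [NormedAlgebra ℂ A]

/-- The approximants `μ (z + μ)⁻¹`. -/
noncomputable def am (z : A) (μ : ℂ) : A := μ • Ring.inverse (z + algebraMap ℂ A μ)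

theorem am_commute (z : A) (μ ν : ℂ) : Commute (am z μ) (am z ν) := by
  unfold am
  refine (Commute.smul_left (Commute.smul_right ?_ ν) μ)
  apply Commute.ringInverse_ringInverse
  refine Commute.add_left ?_ ?_
  · exact (Commute.refl z).add_right (Algebra.commutes ν z).symm
  · exact (Algebra.commutes μ (z + algebraMap ℂ A ν))

theorem isUnit_am (φ : A →ₐ[ℂ] ℂ) (hloc : ∀ a, φ a ≠ 0 → IsUnit a) {z : A} (hz : φ z = 0)
    {μ : ℂ} (hμ : μ ≠ 0) : IsUnit (z + algebraMap ℂ A μ) := by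
  apply hloc
  rw [map_add, hz, zero_add, AlgHom.commutes]
  simpa using hμ

theorem am_mul (φ : A →ₐ[ℂ] ℂ) (hloc : ∀ a, φ a ≠ 0 → IsUnit a) {z : A} (hz : φ z = 0)
    {μ : ℂ} (hμ : μ ≠ 0) : am z μ * (z + algebraMap ℂ A μ) = algebraMap ℂ A μ := by
  unfold am
  rw [smul_mul_assoc, Ring.inverse_mul_cancel _ (isUnit_am φ hloc hz hμ), Algebra.smul_def, mul_one]

theorem mul_am (φ : A →ₐ[ℂ] ℂ) (hloc : ∀ a, φ a ≠ 0 → IsUnit a) {z : A} (hz : φ z = 0)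
    {μ : ℂ} (hμ : μ ≠ 0) : (z + algebraMap ℂ A μ) * am z μ = algebraMap ℂ A μ := by
  unfold am
  rw [mul_smul_comm, Ring.mul_inverse_cancel _ (isUnit_am φ hloc hz hμ), Algebra.smul_def, mul_one]

theorem phi_am (φ : A →ₐ[ℂ] ℂ) (hloc : ∀ a, φ a ≠ 0 → IsUnit a) {z : A} (hz : φ z = 0)
    {μ : ℂ} (hμ : μ ≠ 0) : φ (am z μ) = 1 := by
  have h := congrArg φ (am_mul φ hloc hz hμ)
  rw [map_mul, map_add, hz, zero_add, AlgHom.commutes] at h
  have h2 : φ (am z μ) * μ = 1 * μ := by simpa using h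
  exact mul_right_cancel₀ hμ h2

theorem pow_mul_am (φ : A →ₐ[ℂ] ℂ) (hloc : ∀ a, φ a ≠ 0 → IsUnit a) {z : A} (hz : φ z = 0)
    {μ : ℂ} (hμ : μ ≠ 0) (r k : ℕ) (hrk : r ≤ k) :
    (z + algebraMap ℂ A μ) ^ k * am z μ ^ r = μ ^ r • (z + algebraMap ℂ A μ) ^ (k - r) := by
  induction r with
  | zero => simp
  | succ r ih =>
    have h1 := ih (by omega)
    have h2 : k - r = (k - (r + 1)) + 1 := by omega
    rw [pow_succ (am z μ), ← mul_assoc, h1, h2, pow_succ, smul_mul_assoc, mul_assoc,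
      mul_am φ hloc hz hμ, pow_succ, ← Algebra.commutes, ← Algebra.smul_def, smul_smul]

theorem am_mul_pow (φ : A →ₐ[ℂ] ℂ) (hloc : ∀ a, φ a ≠ 0 → IsUnit a) {z : A} (hz : φ z = 0)
    {μ : ℂ} (hμ : μ ≠ 0) (k : ℕ) :
    am z μ * (z + algebraMap ℂ A μ) ^ (k + 1) = μ • (z + algebraMap ℂ A μ) ^ k := by
  rw [pow_succ', ← mul_assoc, am_mul φ hloc hz hμ, ← Algebra.smul_def]

end Res

section Gen

variable {A : Type} [NormedRing A] [NormedAlgebra ℂ A] [CompleteSpace A]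

omit [CompleteSpace A] in
/-- Iterated density on the right. -/
theorem dense_pow_right {E : Submodule ℂ A} {z : A}
    (hd : ∀ x ∈ E, ∀ ε > 0, ∃ e ∈ E, ‖x - e * z‖ < ε) (N : ℕ) :
    ∀ x ∈ E, ∀ ε > 0, ∃ e ∈ E, ‖x - e * z ^ N‖ < ε := by
  induction N with
  | zero => intro x hx ε hε; exact ⟨x, hx, by simpa using hε⟩
  | succ N ih =>
    intro x hx ε hε
    obtain ⟨e, he, he2⟩ := hd x hx (ε / 2) (half_pos hε)
    obtain ⟨e', he', he2'⟩ := ih e he (ε / 2 / (‖z‖ + 1)) (by positivity)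
    refine ⟨e', he', ?_⟩
    have h1 : x - e' * z ^ (N + 1) = (x - e * z) + (e - e' * z ^ N) * z := by
      rw [pow_succ, ← mul_assoc, sub_mul]; abel
    rw [h1]
    have h2 : ‖(e - e' * z ^ N) * z‖ ≤ ε / 2 := by
      calc ‖(e - e' * z ^ N) * z‖ ≤ ‖e - e' * z ^ N‖ * ‖z‖ := norm_mul_le _ _
        _ ≤ (ε / 2 / (‖z‖ + 1)) * (‖z‖ + 1) := by gcongr; linarith
        _ = ε / 2 := by field_simp
    calc _ ≤ ‖x - e * z‖ + ‖(e - e' * z ^ N) * z‖ := norm_add_le _ _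
      _ < ε := by linarith

omit [CompleteSpace A] in
/-- Iterated density on the left. -/
theorem dense_pow_left {E : Submodule ℂ A} {z : A}
    (hd : ∀ x ∈ E, ∀ ε > 0, ∃ e ∈ E, ‖x - z * e‖ < ε) (N : ℕ) :
    ∀ x ∈ E, ∀ ε > 0, ∃ e ∈ E, ‖x - z ^ N * e‖ < ε := by
  induction N with
  | zero => intro x hx ε hε; exact ⟨x, hx, by simpa using hε⟩
  | succ N ih =>
    intro x hx ε hε
    obtain ⟨e, he, he2⟩ := hd x hx (ε / 2) (half_pos hε)
    obtain ⟨e', he', he2'⟩ := ih e he (ε / 2 / (‖z‖ + 1)) (by positivity)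
    refine ⟨e', he', ?_⟩
    have h1 : x - z ^ (N + 1) * e' = (x - z * e) + z * (e - z ^ N * e') := by
      rw [pow_succ', mul_assoc, mul_sub]; abel
    rw [h1]
    have h2 : ‖z * (e - z ^ N * e')‖ ≤ ε / 2 := by
      calc ‖z * (e - z ^ N * e')‖ ≤ ‖z‖ * ‖e - z ^ N * e'‖ := norm_mul_le _ _
        _ ≤ (‖z‖ + 1) * (ε / 2 / (‖z‖ + 1)) := by gcongr; linarith
        _ = ε / 2 := by field_simp
    calc _ ≤ ‖x - z * e‖ + ‖z * (e - z ^ N * e')‖ := norm_add_le _ _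
      _ < ε := by linarith

omit [CompleteSpace A] in
theorem mem_mul_pow_right {E : Submodule ℂ A} {z : A} (hz : ∀ x ∈ E, x * z ∈ E) (μ : ℂ) (k : ℕ) :
    ∀ x ∈ E, x * (z + algebraMap ℂ A μ) ^ k ∈ E := by
  induction k with
  | zero => intro x hx; simpa using hx
  | succ k ih =>
    intro x hx
    rw [pow_succ, ← mul_assoc, mul_add, ← Algebra.commutes, ← Algebra.smul_def]
    exact E.add_mem (hz _ (ih x hx)) (E.smul_mem _ (ih x hx))

omit [CompleteSpace A] in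
theorem mem_mul_pow_left {E : Submodule ℂ A} {z : A} (hz : ∀ x ∈ E, z * x ∈ E) (μ : ℂ) (k : ℕ) :
    ∀ x ∈ E, (z + algebraMap ℂ A μ) ^ k * x ∈ E := by
  induction k with
  | zero => intro x hx; simpa using hx
  | succ k ih =>
    intro x hx
    rw [pow_succ', mul_assoc, add_mul, ← Algebra.smul_def]
    exact E.add_mem (hz _ (ih x hx)) (E.smul_mem _ (ih x hx))

/-- The open dense sets. -/
def OO (E1 E2 : Submodule ℂ A) (z : A) (k : ℕ) : Set (E1 × E2) :=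
  ⋃ μ ∈ {μ : ℂ | μ ≠ 0}, {p : E1 × E2 | (∀ r ∈ Finset.Icc 1 (k + 1),
    ‖(p.1 : A) * am z μ ^ r‖ < 1 / ((k : ℝ) + 1)) ∧ ‖am z μ * (p.2 : A)‖ < 1 / ((k : ℝ) + 1)}

omit [CompleteSpace A] in
theorem isOpen_OO (E1 E2 : Submodule ℂ A) (z : A) (k : ℕ) : IsOpen (OO E1 E2 z k) := by
  unfold OO
  refine isOpen_biUnion fun μ _ => ?_
  have h1 : {p : E1 × E2 | (∀ r ∈ Finset.Icc 1 (k + 1),
      ‖(p.1 : A) * am z μ ^ r‖ < 1 / ((k : ℝ) + 1)) ∧ ‖am z μ * (p.2 : A)‖ < 1 / ((k : ℝ) + 1)}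
      = (⋂ r ∈ Finset.Icc 1 (k + 1), {p : E1 × E2 | ‖(p.1 : A) * am z μ ^ r‖ < 1 / ((k : ℝ) + 1)})
        ∩ {p : E1 × E2 | ‖am z μ * (p.2 : A)‖ < 1 / ((k : ℝ) + 1)} := by
    ext p
    simp
  rw [h1]
  refine IsOpen.inter ?_ ?_
  · refine isOpen_biInter_finset fun r _ => ?_
    exact isOpen_lt (by fun_prop) continuous_const
  · exact isOpen_lt (by fun_prop) continuous_const

omit [CompleteSpace A] in
theorem dense_OO (φ : A →ₐ[ℂ] ℂ) (hloc : ∀ a, φ a ≠ 0 → IsUnit a) {z : A} (hz : φ z = 0)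
    {E1 E2 : Submodule ℂ A}
    (hE1 : ∀ x ∈ E1, x * z ∈ E1) (hd1 : ∀ N, ∀ x ∈ E1, ∀ ε > 0, ∃ e ∈ E1, ‖x - e * z ^ N‖ < ε)
    (hE2 : ∀ x ∈ E2, z * x ∈ E2) (hd2 : ∀ N, ∀ x ∈ E2, ∀ ε > 0, ∃ e ∈ E2, ‖x - z ^ N * e‖ < ε)
    (k : ℕ) : Dense (OO E1 E2 z k) := by
  rw [Metric.dense_iff]
  rintro ⟨x1, x2⟩ ε hε
  obtain ⟨e, he, he2⟩ := hd1 (k + 1) x1 x1.2 (ε / 2) (half_pos hε)
  obtain ⟨f, hf, hf2⟩ := hd2 (k + 1) x2 x2.2 (ε / 2) (half_pos hε)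
  -- limits as `μ → 0`
  have ht1 : Tendsto (fun μ : ℂ => ‖(x1 : A) - e * (z + algebraMap ℂ A μ) ^ (k + 1)‖) (𝓝[≠] 0)
      (𝓝 ‖(x1 : A) - e * z ^ (k + 1)‖) := by
    have hc : Continuous (fun μ : ℂ => ‖(x1 : A) - e * (z + algebraMap ℂ A μ) ^ (k + 1)‖) := by
      have : Continuous (fun μ : ℂ => algebraMap ℂ A μ) := continuous_algebraMap ℂ A
      fun_prop
    have := (hc.tendsto 0).mono_left (nhdsWithin_le_nhds (s := {0}ᶜ))
    simpa using this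
  have ht2 : Tendsto (fun μ : ℂ => ‖(x2 : A) - (z + algebraMap ℂ A μ) ^ (k + 1) * f‖) (𝓝[≠] 0)
      (𝓝 ‖(x2 : A) - z ^ (k + 1) * f‖) := by
    have hc : Continuous (fun μ : ℂ => ‖(x2 : A) - (z + algebraMap ℂ A μ) ^ (k + 1) * f‖) := by
      have : Continuous (fun μ : ℂ => algebraMap ℂ A μ) := continuous_algebraMap ℂ A
      fun_prop
    have := (hc.tendsto 0).mono_left (nhdsWithin_le_nhds (s := {0}ᶜ))
    simpa using this
  have ht3 : ∀ r ∈ Finset.Icc 1 (k + 1), Tendsto (fun μ : ℂ =>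
      ‖e * (μ ^ r • (z + algebraMap ℂ A μ) ^ (k + 1 - r))‖) (𝓝[≠] 0) (𝓝 0) := by
    intro r hr
    rw [Finset.mem_Icc] at hr
    have hc : Continuous (fun μ : ℂ =>
        ‖e * (μ ^ r • (z + algebraMap ℂ A μ) ^ (k + 1 - r))‖) := by
      have : Continuous (fun μ : ℂ => algebraMap ℂ A μ) := continuous_algebraMap ℂ A
      fun_prop
    have := (hc.tendsto 0).mono_left (nhdsWithin_le_nhds (s := {0}ᶜ))
    simpa [zero_pow (by omega : r ≠ 0)] using this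
  have ht4 : Tendsto (fun μ : ℂ => ‖(μ • (z + algebraMap ℂ A μ) ^ k) * f‖) (𝓝[≠] 0) (𝓝 0) := by
    have hc : Continuous (fun μ : ℂ => ‖(μ • (z + algebraMap ℂ A μ) ^ k) * f‖) := by
      have : Continuous (fun μ : ℂ => algebraMap ℂ A μ) := continuous_algebraMap ℂ A
      fun_prop
    have := (hc.tendsto 0).mono_left (nhdsWithin_le_nhds (s := {0}ᶜ))
    simpa using this
  have hk : (0 : ℝ) < 1 / ((k : ℝ) + 1) := by positivity
  have he2' : ‖(x1 : A) - e * z ^ (k + 1)‖ < ε := he2.trans (half_lt_self hε)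
  have hf2' : ‖(x2 : A) - z ^ (k + 1) * f‖ < ε := hf2.trans (half_lt_self hε)
  have hev3 : ∀ᶠ μ : ℂ in 𝓝[≠] 0, ∀ r ∈ Finset.Icc 1 (k + 1),
      ‖e * (μ ^ r • (z + algebraMap ℂ A μ) ^ (k + 1 - r))‖ < 1 / ((k : ℝ) + 1) := by
    rw [Filter.eventually_all_finset]
    intro r hr
    exact (ht3 r hr).eventually (gt_mem_nhds hk)
  obtain ⟨μ, ⟨⟨⟨⟨h1, h2⟩, h3⟩, h4⟩, h5⟩⟩ :=
    ((((ht1.eventually (gt_mem_nhds he2')).and (ht2.eventually (gt_mem_nhds hf2'))).and hev3).and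
      (ht4.eventually (gt_mem_nhds hk))).and self_mem_nhdsWithin |>.exists
  have hμ : μ ≠ 0 := h5
  refine ⟨(⟨e * (z + algebraMap ℂ A μ) ^ (k + 1), mem_mul_pow_right hE1 μ (k + 1) e he⟩,
    ⟨(z + algebraMap ℂ A μ) ^ (k + 1) * f, mem_mul_pow_left hE2 μ (k + 1) f hf⟩), ?_, ?_⟩
  · rw [Metric.mem_ball, Prod.dist_eq, max_lt_iff]
    constructor
    · rw [dist_comm, Subtype.dist_eq, dist_eq_norm]; exact h1
    · rw [dist_comm, Subtype.dist_eq, dist_eq_norm]; exact h2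
  · unfold OO
    simp only [Set.mem_iUnion]
    refine ⟨μ, hμ, ?_, ?_⟩
    · intro r hr
      have hr' := Finset.mem_Icc.1 hr
      show ‖e * (z + algebraMap ℂ A μ) ^ (k + 1) * am z μ ^ r‖ < _
      rw [mul_assoc, pow_mul_am φ hloc hz hμ r (k + 1) hr'.2]
      exact h3 r hr
    · show ‖am z μ * ((z + algebraMap ℂ A μ) ^ (k + 1) * f)‖ < _
      rw [← mul_assoc, am_mul_pow φ hloc hz hμ]
      exact h4

/-- Pigeonhole for two affine functions. -/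
theorem exists_lambda {α β α' β' : ℂ} (hβ : β ≠ 0) (hβ' : β' ≠ 0) :
    ∃ i : Fin 3, α + ((i : ℕ) : ℂ) * β ≠ 0 ∧ α' + ((i : ℕ) : ℂ) * β' ≠ 0 := by
  by_contra hcon
  push Not at hcon
  have h0 := hcon 0
  have h1 := hcon 1
  have h2 := hcon 2
  simp only [Fin.val_zero, Fin.val_one, Fin.val_two, Nat.cast_zero, Nat.cast_one,
    Nat.cast_ofNat] at h0 h1 h2
  by_cases a0 : α + 0 * β = 0
  · have a1 : α + 1 * β ≠ 0 := fun h => hβ (by linear_combination h - a0)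
    have a2 : α + 2 * β ≠ 0 := fun h => hβ (by linear_combination (1 / 2) * h - (1 / 2) * a0)
    exact hβ' (by linear_combination h2 a2 - h1 a1)
  · by_cases a1 : α + 1 * β = 0
    · have a2 : α + 2 * β ≠ 0 := fun h => hβ (by linear_combination h - a1)
      exact hβ' (by linear_combination (1 / 2) * h2 a2 - (1 / 2) * h0 a0)
    · exact hβ' (by linear_combination h1 a1 - h0 a0)

variable {δ : A →ₗ[ℂ] A} (hδ : ∀ a b : A, δ (a * b) = a * δ b + δ a * b)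

include hδ

/-- **The generic pair.** -/
theorem generic_pair (φ : A →ₐ[ℂ] ℂ) (hloc : ∀ a, φ a ≠ 0 → IsUnit a) (z : A) (hz : φ z = 0)
    (hzf : ∃ n, φ (dp δ n z) ≠ 0) (s0 : A) (hs0 : s0 ∈ Sep δ) (hs0f : ∃ n, φ (dp δ n s0) ≠ 0) :
    ∃ (y w : A) (a : ℕ → A), (∃ n, φ (dp δ n y) ≠ 0) ∧ (∃ n, φ (dp δ n w) ≠ 0) ∧
      (∀ i j, Commute (a i) (a j)) ∧ (∀ j, φ (a j) = 1) ∧
      (∀ r, 1 ≤ r → Tendsto (fun j => y * a j ^ r) atTop (𝓝 0)) ∧
      Tendsto (fun j => a j * w) atTop (𝓝 0) := by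
  classical
  obtain ⟨E1, n1, hE1c, hE1s, hE1z, hE1d⟩ := stab_right hδ z
  obtain ⟨E2, n2, hE2c, hE2s, hE2z, hE2d⟩ := stab_left hδ z
  have hzp : ∀ j : ℕ, ∃ n, φ (dp δ n (z ^ j)) ≠ 0 := by
    intro j
    induction j with
    | zero => exact ⟨0, by simp⟩
    | succ j ih => rw [pow_succ]; exact finOrd_mul hδ φ ih hzf
  obtain ⟨nQ, hQ⟩ := finOrd_mul hδ φ hs0f (hzp n1)
  obtain ⟨nP, hP⟩ := finOrd_mul hδ φ (hzp n2) hs0f
  have : CompleteSpace E1 := hE1c.completeSpace_coe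
  have : CompleteSpace E2 := hE2c.completeSpace_coe
  let v : E1 × E2 := (⟨s0 * z ^ n1, hE1s s0 hs0⟩, ⟨z ^ n2 * s0, hE2s s0 hs0⟩)
  -- Baire
  have hdense : Dense (⋂ q : ℕ × Fin 3, (fun p : E1 × E2 => p + ((q.2 : ℕ) : ℂ) • v) ⁻¹'
      (OO E1 E2 z q.1)) := by
    refine dense_iInter_of_isOpen ?_ ?_
    · intro q
      exact (isOpen_OO E1 E2 z q.1).preimage (by fun_prop)
    · intro q
      exact (dense_OO φ hloc hz hE1z (dense_pow_right hE1d) hE2z (dense_pow_left hE2d) q.1).preimage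
        (Homeomorph.addRight (((q.2 : ℕ) : ℂ) • v)).isOpenMap
  obtain ⟨p, hp⟩ := hdense.nonempty
  simp only [Set.mem_iInter, Set.mem_preimage] at hp
  obtain ⟨i, hi1, hi2⟩ := exists_lambda (α := φ (dp δ nQ (p.1 : A))) (α' := φ (dp δ nP (p.2 : A)))
    hQ hP
  have hi1' : φ (dp δ nQ ((p.1 : A) + ((i : ℕ) : ℂ) • (s0 * z ^ n1))) ≠ 0 := by
    rw [map_add, map_add, map_smul, map_smul, smul_eq_mul]; exact hi1
  have hi2' : φ (dp δ nP ((p.2 : A) + ((i : ℕ) : ℂ) • (z ^ n2 * s0))) ≠ 0 := by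
    rw [map_add, map_add, map_smul, map_smul, smul_eq_mul]; exact hi2
  have hk : ∀ k : ℕ, ∃ μ : ℂ, μ ≠ 0 ∧ (∀ r ∈ Finset.Icc 1 (k + 1),
      ‖((p.1 : A) + ((i : ℕ) : ℂ) • (s0 * z ^ n1)) * am z μ ^ r‖ < 1 / ((k : ℝ) + 1)) ∧
      ‖am z μ * ((p.2 : A) + ((i : ℕ) : ℂ) • (z ^ n2 * s0))‖ < 1 / ((k : ℝ) + 1) := by
    intro k
    have := hp (k, i)
    unfold OO at this
    simp only [Set.mem_iUnion] at this
    obtain ⟨μ, hμ, h⟩ := this
    exact ⟨μ, hμ, h⟩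
  choose μ hμ0 hμ1 hμ2 using hk
  refine ⟨(p.1 : A) + ((i : ℕ) : ℂ) • (s0 * z ^ n1), (p.2 : A) + ((i : ℕ) : ℂ) • (z ^ n2 * s0),
    fun k => am z (μ k), ⟨nQ, hi1'⟩, ⟨nP, hi2'⟩, fun i j => am_commute z _ _,
    fun j => phi_am φ hloc hz (hμ0 j), ?_, ?_⟩
  · intro r hr
    rw [tendsto_zero_iff_norm_tendsto_zero]
    refine squeeze_zero' (Eventually.of_forall fun _ => norm_nonneg _) ?_
      tendsto_one_div_add_atTop_nhds_zero_nat
    filter_upwards [eventually_ge_atTop r] with k hk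
    exact (hμ1 k r (Finset.mem_Icc.2 ⟨hr, by omega⟩)).le
  · exact squeeze_zero_norm (fun k => (hμ2 k).le) tendsto_one_div_add_atTop_nhds_zero_nat

end Gen

end MPb3782f.H78
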