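import Mathlib

/-!
# Near-openness (Baire + scaling), MP_b3782f_an, helper78
-/

namespace MPb3782f.H78

open Filter Topology

/-- **Near-openness.**  `M` a finite nonnegative size function on a Banach space, subhomogeneous,
with bounded translates by a dense set of points.  Then `{M < ε}` is dense in a ball round `0`. -/
theorem near_open {X : Type*} [NormedAddCommGroup X] [NormedSpace ℝ X] [CompleteSpace X]
    (M : X → ℝ)
    (hscale : ∀ (l : ℝ) (c : X), 0 ≤ l → l ≤ 1 → M (l • c) ≤ l * M c)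
    (D : Set X) (hD : Dense D)
    (htrans : ∀ e ∈ D, ∀ n : ℝ, ∃ C : ℝ, ∀ c, M c ≤ n → M (c - e) ≤ C)
    (ε : ℝ) (hε : 0 < ε) :
    ∃ ρ : ℝ, 0 < ρ ∧ Metric.ball (0 : X) ρ ⊆ closure {c | M c < ε} := by
  -- Baire
  have hU : (⋃ n : ℕ, closure {c : X | M c ≤ n}) = Set.univ := by
    refine Set.eq_univ_of_forall fun c => ?_
    obtain ⟨n, hn⟩ := exists_nat_ge (M c)
    exact Set.mem_iUnion.2 ⟨n, subset_closure hn⟩
  obtain ⟨n, hn⟩ := nonempty_interior_of_iUnion_of_closed
    (fun n : ℕ => isClosed_closure (s := {c : X | M c ≤ n})) hU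
  obtain ⟨e, he, heD⟩ := hD.inter_open_nonempty _ isOpen_interior hn
  obtain ⟨r, hr, hball⟩ := Metric.isOpen_iff.1 isOpen_interior e he
  have hball' : Metric.ball e r ⊆ closure {c : X | M c ≤ n} := hball.trans interior_subset
  obtain ⟨C0, hC0⟩ := htrans e heD n
  set C : ℝ := max C0 1 with hCdef
  have hC1 : 1 ≤ C := le_max_right _ _
  have hCpos : 0 < C := by linarith
  -- translated
  have h0 : ∀ x : X, ‖x‖ < r → ∀ η : ℝ, 0 < η → ∃ c : X, M c ≤ C ∧ ‖x - c‖ < η := by
    intro x hx η hη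
    have hx' : x + e ∈ closure {c : X | M c ≤ n} := hball' (by simpa [Metric.mem_ball, dist_eq_norm] using hx)
    obtain ⟨c, hc, hd⟩ := Metric.mem_closure_iff.1 hx' η hη
    refine ⟨c - e, (hC0 c hc).trans (le_max_left _ _), ?_⟩
    rw [dist_eq_norm] at hd
    have : x - (c - e) = x + e - c := by abel
    rwa [this]
  -- scale
  set l : ℝ := min 1 (ε / (2 * C)) with hldef
  have hlpos : 0 < l := lt_min one_pos (by positivity)
  have hl1 : l ≤ 1 := min_le_left _ _
  have hlC : l * C < ε := by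
    have : l ≤ ε / (2 * C) := min_le_right _ _
    calc l * C ≤ ε / (2 * C) * C := by gcongr
      _ = ε / 2 := by field_simp
      _ < ε := by linarith
  refine ⟨l * r, by positivity, ?_⟩
  intro x hx
  rw [Metric.mem_ball, dist_zero_right] at hx
  rw [Metric.mem_closure_iff]
  intro η hη
  have hx' : ‖l⁻¹ • x‖ < r := by
    rw [norm_smul, norm_inv, Real.norm_of_nonneg hlpos.le, inv_mul_lt_iff₀ hlpos]
    exact hx
  obtain ⟨c, hc, hd⟩ := h0 (l⁻¹ • x) hx' η hη
  refine ⟨l • c, ?_, ?_⟩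
  · show M (l • c) < ε
    calc M (l • c) ≤ l * M c := hscale l c hlpos.le hl1
      _ ≤ l * C := by gcongr
      _ < ε := hlC
  · rw [dist_eq_norm]
    have h1 : x - l • c = l • (l⁻¹ • x - c) := by
      rw [smul_sub, smul_smul, mul_inv_cancel₀ hlpos.ne', one_smul]
    rw [h1, norm_smul, Real.norm_of_nonneg hlpos.le]
    calc l * ‖l⁻¹ • x - c‖ ≤ 1 * ‖l⁻¹ • x - c‖ := by gcongr
      _ < η := by simpa using hd

end MPb3782f.H78
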