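import Pool.Agent.Lib.MP_b3782f_an.H79.Sep

/-!
# The stability lemma (closures), MP_b3782f_an, helper78
-/

set_option autoImplicit false

open Filter Topology

namespace MPb3782f.H78

open Pool.Agent.Lib.MP_b3782f_an.H79

section SepM

variable {E F : Type*} [NormedAddCommGroup E] [NormedSpace ℂ E]
  [NormedAddCommGroup F] [NormedSpace ℂ F]

/-- The separating space as a submodule. -/
def SepM [CompleteSpace E] [CompleteSpace F] (T : E →ₗ[ℂ] F) : Submodule ℂ F where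
  carrier := Sep T
  zero_mem' := ⟨fun _ => 0, tendsto_const_nhds, by simp⟩
  add_mem' := by
    rintro a b ⟨x, hx1, hx2⟩ ⟨y, hy1, hy2⟩
    refine ⟨fun k => x k + y k, ?_, ?_⟩
    · simpa using hx1.add hy1
    · simpa using hx2.add hy2
  smul_mem' := fun c y hy => Sep.smul_mem hy c

theorem mem_SepM [CompleteSpace E] [CompleteSpace F] {T : E →ₗ[ℂ] F} {y : F} :
    y ∈ SepM T ↔ y ∈ Sep T := Iff.rfl

end SepM

variable {A : Type} [NormedRing A] [NormedAlgebra ℂ A] [CompleteSpace A]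

/-- The closure of `τ ^ n` applied to the separating space. -/
noncomputable def SK (δ : A →ₗ[ℂ] A) (τ : A →L[ℂ] A) (n : ℕ) : Submodule ℂ A :=
  ((SepM δ).map ((τ ^ n : A →L[ℂ] A) : A →ₗ[ℂ] A)).topologicalClosure

theorem mem_SK_of {δ : A →ₗ[ℂ] A} {τ : A →L[ℂ] A} {n : ℕ} {s : A} (hs : s ∈ Sep δ) :
    (τ ^ n) s ∈ SK δ τ n :=
  Submodule.le_topologicalClosure _ (Submodule.mem_map_of_mem (mem_SepM.2 hs))

theorem isClosed_SK (δ : A →ₗ[ℂ] A) (τ : A →L[ℂ] A) (n : ℕ) : IsClosed (SK δ τ n : Set A) :=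
  Submodule.isClosed_topologicalClosure _

/-- **Stability lemma.** -/
theorem stab_gen (δ : A →ₗ[ℂ] A) (τ : A →L[ℂ] A)
    (hτ : ∀ n : ℕ, Continuous fun x => δ ((τ ^ n) x) - (τ ^ n) (δ x)) :
    ∃ n : ℕ, ∀ s ∈ Sep δ, (τ ^ n) s ∈ SK δ τ (n + 1) := by
  by_contra hcon
  push Not at hcon
  choose s hs hs2 using hcon
  let K : ℕ → Submodule ℂ A := fun n => SK δ τ (n + 1)
  have hKc : ∀ n, IsClosed (K n : Set A) := fun n => isClosed_SK δ τ (n + 1)
  let q : ∀ n : ℕ, A →L[ℂ] (A ⧸ K n) := fun n => (K n).mkQL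
  have hq : ∀ n x, ‖q n x‖ ≤ ‖x‖ := fun n x => Submodule.Quotient.norm_mk_le (K n) x
  have hq0 : ∀ n x, x ∈ K n → q n x = 0 := fun n x hx => (Submodule.Quotient.mk_eq_zero (K n)).2 hx
  have hqne : ∀ n, 0 < ‖q n ((τ ^ n) (s n))‖ := by
    intro n
    rcases (norm_nonneg (q n ((τ ^ n) (s n)))).lt_or_eq with h | h
    · exact h
    · exfalso
      apply hs2 n
      have h1 : ‖((((τ ^ n) (s n) : A)) : A ⧸ (K n).toAddSubgroup)‖ = 0 := h.symm
      rw [QuotientAddGroup.norm_mk_eq_zero_iff_mem_closure] at h1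
      have h2 : closure (((K n).toAddSubgroup : AddSubgroup A) : Set A) = (K n : Set A) :=
        (hKc n).closure_eq
      rw [h2] at h1
      exact h1
  let C : ℕ → A →ₗ[ℂ] A := fun n => ((τ ^ n : A →L[ℂ] A) : A →ₗ[ℂ] A)
  let N : ℕ → Seminorm ℂ A := fun n =>
    (normSeminorm ℂ (A ⧸ K n)).comp (((q n : A →L[ℂ] (A ⧸ K n)) : A →ₗ[ℂ] (A ⧸ K n)) ∘ₗ δ)
  have hN : ∀ n x, N n x = ‖q n (δ x)‖ := fun n x => rfl
  have hws : WithSeminorms (fun _ : ℕ => normSeminorm ℂ A) :=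
    (norm_withSeminorms ℂ A).congr (fun _ => ⟨{0}, 1, by simp⟩) (fun _ => ⟨{0}, 1, by simp⟩)
  suffices hex : ∃ x : A, ∀ n : ℕ, (n : ℝ) ≤ N n x by
    obtain ⟨x, hx⟩ := hex
    obtain ⟨n, hn⟩ := exists_nat_gt ‖δ x‖
    have h1 := hx n
    rw [hN] at h1
    have h2 := hq n (δ x)
    linarith
  refine Pool.Agent.Lib.MP_74fee8_an.hump_gen (A := A)
    (p := fun _ => normSeminorm ℂ A) hws (fun _ _ _ => le_rfl)
    (fun _ => (τ : A →ₗ[ℂ] A)) C (fun _ => τ.continuous) ?_ ?_ N ?_ ?_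
  · ext y
    simp [C]
  · intro n
    ext y
    simp [C, pow_succ]
  · intro n ε hε
    have h1 : ∀ y ∈ Sep δ, ((q n).comp (τ ^ (n + 1))) y = 0 := by
      intro y hy
      exact hq0 n _ (mem_SK_of hy)
    have h2 := continuous_of_sep δ _ h1
    have h3 : Continuous fun y : A => N n (C (n + 1) y) := by
      have h4 : (fun y : A => N n (C (n + 1) y))
          = fun y : A => ‖q n (δ ((τ ^ (n + 1)) y) - (τ ^ (n + 1)) (δ y))
              + ((q n).comp (τ ^ (n + 1))) (δ y)‖ := by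
        funext y
        rw [hN]
        congr 1
        rw [ContinuousLinearMap.comp_apply, ← map_add]
        congr 1
        change δ ((τ ^ (n + 1)) y) = _
        abel
      rw [h4]
      exact (((q n).continuous.comp (hτ (n + 1))).add h2).norm
    have h4 := h3.tendsto 0
    simp only [map_zero] at h4
    exact h4.eventually (gt_mem_nhds hε)
  · intro n U hU K'
    obtain ⟨x, hx1, hx2⟩ := hs n
    have hpos := hqne n
    set c : ℝ := (|K'| + 1) * (2 / ‖q n ((τ ^ n) (s n))‖) with hc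
    have hcpos : 0 < c := by positivity
    have h3 : Tendsto (fun k => ‖q n (δ ((τ ^ n) ((c : ℂ) • x k)))‖) atTop
        (𝓝 (c * ‖q n ((τ ^ n) (s n))‖)) := by
      have h4 : Tendsto (fun k => q n (δ ((τ ^ n) ((c : ℂ) • x k)))) atTop
          (𝓝 ((c : ℂ) • q n ((τ ^ n) (s n)))) := by
        have h5 : ∀ k, q n (δ ((τ ^ n) ((c : ℂ) • x k)))
            = (c : ℂ) • (q n ((δ ((τ ^ n) (x k)) - (τ ^ n) (δ (x k))) + (τ ^ n) (δ (x k)))) := by
          intro k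
          rw [map_smul, map_smul, map_smul]
          congr 2
          abel
        simp only [h5]
        have h6 : Tendsto (fun k => δ ((τ ^ n) (x k)) - (τ ^ n) (δ (x k))) atTop (𝓝 0) := by
          have := ((hτ n).tendsto 0).comp hx1
          simpa [Function.comp_def] using this
        have h7 : Tendsto (fun k => (τ ^ n) (δ (x k))) atTop (𝓝 ((τ ^ n) (s n))) :=
          ((τ ^ n).continuous.tendsto _).comp hx2
        have h8 := (((q n).continuous.tendsto _).comp (h6.add h7)).const_smul (c : ℂ)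
        rw [zero_add] at h8
        exact h8
      have h7 := h4.norm
      rw [norm_smul, Complex.norm_real, Real.norm_of_nonneg hcpos.le] at h7
      exact h7
    have h4 : Tendsto (fun k => (c : ℂ) • x k) atTop (𝓝 0) := by
      simpa using hx1.const_smul (c : ℂ)
    have h5 : c * ‖q n ((τ ^ n) (s n))‖ > |K'| + 1 := by
      rw [hc]
      have h6 : (|K'| + 1) * (2 / ‖q n ((τ ^ n) (s n))‖) * ‖q n ((τ ^ n) (s n))‖
          = 2 * (|K'| + 1) := by
        field_simp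
      rw [h6]
      have : 0 < |K'| + 1 := by positivity
      linarith
    have h6 := h3.eventually (lt_mem_nhds h5)
    obtain ⟨k, hk1, hk2⟩ := ((h4.eventually hU).and h6).exists
    refine ⟨(c : ℂ) • x k, hk1, ?_⟩
    rw [hN]
    have h7 : C n ((c : ℂ) • x k) = (τ ^ n) ((c : ℂ) • x k) := rfl
    rw [h7]
    have := le_abs_self K'
    linarith

variable {δ : A →ₗ[ℂ] A} (hδ : ∀ a b : A, δ (a * b) = a * δ b + δ a * b)

omit [CompleteSpace A] in
theorem mulRight_pow_apply (z : A) (n : ℕ) (x : A) :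
    (((ContinuousLinearMap.mul ℂ A).flip z) ^ n) x = x * z ^ n := by
  induction n generalizing x with
  | zero => simp
  | succ n ih =>
    rw [pow_succ]
    change (((ContinuousLinearMap.mul ℂ A).flip z) ^ n) (x * z) = _
    rw [ih, pow_succ', mul_assoc]

omit [CompleteSpace A] in
theorem mulLeft_pow_apply (z : A) (n : ℕ) (x : A) :
    (((ContinuousLinearMap.mul ℂ A) z) ^ n) x = z ^ n * x := by
  induction n generalizing x with
  | zero => simp
  | succ n ih =>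
    rw [pow_succ]
    change (((ContinuousLinearMap.mul ℂ A) z) ^ n) (z * x) = _
    rw [ih, pow_succ, mul_assoc]

include hδ

/-- Stable closed subspace for right multiplication by `z`. -/
theorem stab_right (z : A) : ∃ (E : Submodule ℂ A) (n : ℕ), IsClosed (E : Set A) ∧
    (∀ s ∈ Sep δ, s * z ^ n ∈ E) ∧ (∀ x ∈ E, x * z ∈ E) ∧
    (∀ x ∈ E, ∀ ε > 0, ∃ e ∈ E, ‖x - e * z‖ < ε) := by
  set τ : A →L[ℂ] A := (ContinuousLinearMap.mul ℂ A).flip z with hτdef
  have hτp : ∀ n x, (τ ^ n) x = x * z ^ n := fun n x => mulRight_pow_apply z n x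
  have hτ : ∀ n : ℕ, Continuous fun x => δ ((τ ^ n) x) - (τ ^ n) (δ x) := by
    intro n
    have : (fun x => δ ((τ ^ n) x) - (τ ^ n) (δ x)) = fun x => x * δ (z ^ n) := by
      funext x
      rw [hτp, hτp, hδ]
      abel
    rw [this]
    fun_prop
  obtain ⟨n, hn⟩ := stab_gen δ τ hτ
  refine ⟨SK δ τ n, n, isClosed_SK δ τ n, ?_, ?_, ?_⟩
  · intro s hs
    rw [← hτp]
    exact mem_SK_of hs
  · -- `SK n * z ⊆ SK n`
    have h1 : ∀ x ∈ (SepM δ).map ((τ ^ n : A →L[ℂ] A) : A →ₗ[ℂ] A), x * z ∈ SK δ τ n := by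
      rintro x ⟨s, hs, rfl⟩
      have h2 : ((τ ^ n : A →L[ℂ] A) : A →ₗ[ℂ] A) s * z = (τ ^ n) (s * z) := by
        change (τ ^ n) s * z = _
        rw [hτp, hτp, mul_assoc, mul_assoc, ← pow_succ, ← pow_succ']
      rw [h2]
      exact mem_SK_of (Sep.mul_right hδ hs z)
    intro x hx
    have h3 : Continuous fun x : A => x * z := by fun_prop
    have h4 : closure ((SepM δ).map ((τ ^ n : A →L[ℂ] A) : A →ₗ[ℂ] A) : Set A)
        ⊆ (fun x : A => x * z) ⁻¹' (SK δ τ n : Set A) :=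
      closure_minimal (fun x hx => h1 x hx) ((isClosed_SK δ τ n).preimage h3)
    exact h4 hx
  · -- density
    intro x hx ε hε
    have hx' : x ∈ closure ((SepM δ).map ((τ ^ n : A →L[ℂ] A) : A →ₗ[ℂ] A) : Set A) := hx
    obtain ⟨x', ⟨s, hs, rfl⟩, hd⟩ := Metric.mem_closure_iff.1 hx' (ε / 2) (half_pos hε)
    have h5 : (τ ^ n) s ∈ closure ((SepM δ).map ((τ ^ (n + 1) : A →L[ℂ] A) : A →ₗ[ℂ] A) : Set A) :=
      hn s hs
    obtain ⟨x'', ⟨s', hs', rfl⟩, hd'⟩ := Metric.mem_closure_iff.1 h5 (ε / 2) (half_pos hε)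
    refine ⟨(τ ^ n) s', mem_SK_of hs', ?_⟩
    have h6 : (τ ^ n) s' * z = (τ ^ (n + 1)) s' := by
      rw [hτp, hτp, mul_assoc, ← pow_succ]
    rw [h6]
    rw [dist_eq_norm] at hd hd'
    have h7 : x - (τ ^ (n + 1)) s' = (x - (τ ^ n) s) + ((τ ^ n) s - (τ ^ (n + 1)) s') := by abel
    rw [h7]
    refine (norm_add_le _ _).trans_lt ?_
    have h8 : ‖x - (τ ^ n) s‖ < ε / 2 := hd
    have h9 : ‖(τ ^ n) s - (τ ^ (n + 1)) s'‖ < ε / 2 := hd'
    linarith

/-- Stable closed subspace for left multiplication by `z`. -/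
theorem stab_left (z : A) : ∃ (E : Submodule ℂ A) (n : ℕ), IsClosed (E : Set A) ∧
    (∀ s ∈ Sep δ, z ^ n * s ∈ E) ∧ (∀ x ∈ E, z * x ∈ E) ∧
    (∀ x ∈ E, ∀ ε > 0, ∃ e ∈ E, ‖x - z * e‖ < ε) := by
  set τ : A →L[ℂ] A := (ContinuousLinearMap.mul ℂ A) z with hτdef
  have hτp : ∀ n x, (τ ^ n) x = z ^ n * x := fun n x => mulLeft_pow_apply z n x
  have hτ : ∀ n : ℕ, Continuous fun x => δ ((τ ^ n) x) - (τ ^ n) (δ x) := by
    intro n
    have : (fun x => δ ((τ ^ n) x) - (τ ^ n) (δ x)) = fun x => δ (z ^ n) * x := by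
      funext x
      rw [hτp, hτp, hδ]
      abel
    rw [this]
    fun_prop
  obtain ⟨n, hn⟩ := stab_gen δ τ hτ
  refine ⟨SK δ τ n, n, isClosed_SK δ τ n, ?_, ?_, ?_⟩
  · intro s hs
    rw [← hτp]
    exact mem_SK_of hs
  · have h1 : ∀ x ∈ (SepM δ).map ((τ ^ n : A →L[ℂ] A) : A →ₗ[ℂ] A), z * x ∈ SK δ τ n := by
      rintro x ⟨s, hs, rfl⟩
      have h2 : z * ((τ ^ n : A →L[ℂ] A) : A →ₗ[ℂ] A) s = (τ ^ n) (z * s) := by
        change z * (τ ^ n) s = _
        rw [hτp, hτp, ← mul_assoc, ← mul_assoc, ← pow_succ, ← pow_succ']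
      rw [h2]
      exact mem_SK_of (Sep.mul_left hδ hs z)
    intro x hx
    have h3 : Continuous fun x : A => z * x := by fun_prop
    have h4 : closure ((SepM δ).map ((τ ^ n : A →L[ℂ] A) : A →ₗ[ℂ] A) : Set A)
        ⊆ (fun x : A => z * x) ⁻¹' (SK δ τ n : Set A) :=
      closure_minimal (fun x hx => h1 x hx) ((isClosed_SK δ τ n).preimage h3)
    exact h4 hx
  · intro x hx ε hε
    have hx' : x ∈ closure ((SepM δ).map ((τ ^ n : A →L[ℂ] A) : A →ₗ[ℂ] A) : Set A) := hx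
    obtain ⟨x', ⟨s, hs, rfl⟩, hd⟩ := Metric.mem_closure_iff.1 hx' (ε / 2) (half_pos hε)
    have h5 : (τ ^ n) s ∈ closure ((SepM δ).map ((τ ^ (n + 1) : A →L[ℂ] A) : A →ₗ[ℂ] A) : Set A) :=
      hn s hs
    obtain ⟨x'', ⟨s', hs', rfl⟩, hd'⟩ := Metric.mem_closure_iff.1 h5 (ε / 2) (half_pos hε)
    refine ⟨(τ ^ n) s', mem_SK_of hs', ?_⟩
    have h6 : z * (τ ^ n) s' = (τ ^ (n + 1)) s' := by
      rw [hτp, hτp, ← mul_assoc, ← pow_succ']
    rw [h6]
    rw [dist_eq_norm] at hd hd'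
    have h7 : x - (τ ^ (n + 1)) s' = (x - (τ ^ n) s) + ((τ ^ n) s - (τ ^ (n + 1)) s') := by abel
    rw [h7]
    refine (norm_add_le _ _).trans_lt ?_
    have h8 : ‖x - (τ ^ n) s‖ < ε / 2 := hd
    have h9 : ‖(τ ^ n) s - (τ ^ (n + 1)) s'‖ < ε / 2 := hd'
    linarith

end MPb3782f.H78
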